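import Mathlib

/-!
# Difference quotients of a vector field along the orbits of a polynomial

The vector field `W` satisfies `W (P a) = P' a * W a + G a`. (Generalization of `H46TP/Loc.lean`.)
-/

set_option autoImplicit false

open Complex Topology Filter Metric MeasureTheory Set Polynomial

namespace Pool.Agent.H51MS

theorem dslope_diff (P : ℂ[X]) (a : ℂ) : Differentiable ℂ (dslope (fun y : ℂ => P.eval y) a) := by
  rw [← differentiableOn_univ, Complex.differentiableOn_dslope (Filter.univ_mem)]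
  exact P.differentiable.differentiableOn

theorem dslope_mul (P : ℂ[X]) (a y : ℂ) :
    dslope (fun y : ℂ => P.eval y) a y * (y - a) = P.eval y - P.eval a := by
  have h := sub_smul_dslope (fun y : ℂ => P.eval y) a y
  rw [smul_eq_mul] at h
  rw [mul_comm]
  exact h

theorem dslope_self' (P : ℂ[X]) (a : ℂ) :
    dslope (fun y : ℂ => P.eval y) a a = (derivative P).eval a := by
  rw [dslope_same]
  exact P.deriv

/-- The change of the difference quotient of the vector field under one step of the dynamics. -/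
theorem one_step (P G : ℂ[X]) {a : ℂ} (ha : (derivative P).eval a ≠ 0) : ∃ C : ℝ, 0 ≤ C ∧
    ∀ᶠ y in 𝓝 a, y ≠ a → P.eval y ≠ P.eval a ∧ ∀ va vy : ℂ,
      ‖(((derivative P).eval y * vy + G.eval y) - ((derivative P).eval a * va + G.eval a)) /
          (P.eval y - P.eval a) - (vy - va) / (y - a) -
          ((derivative (derivative P)).eval a * va + (derivative G).eval a) /
            (derivative P).eval a‖ ≤
      C * ‖y - a‖ * (‖(vy - va) / (y - a)‖ + ‖va‖ + 1) := by
  set dP := dslope (fun y : ℂ => P.eval y) a with hdP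
  set dQ := dslope (fun y : ℂ => (derivative P).eval y) a with hdQ
  set dG := dslope (fun y : ℂ => G.eval y) a with hdG
  have hPa : dP a = (derivative P).eval a := dslope_self' P a
  have hQa : dQ a = (derivative (derivative P)).eval a := dslope_self' _ a
  have hGa : dG a = (derivative G).eval a := dslope_self' G a
  have hDa : dP a ≠ 0 := by rw [hPa]; exact ha
  set g1 : ℂ → ℂ := fun y => (derivative P).eval y / dP y - 1 with hg1
  set g2 : ℂ → ℂ := fun y => dQ y / dP y -
    (derivative (derivative P)).eval a / (derivative P).eval a with hg2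
  set g3 : ℂ → ℂ := fun y => dG y / dP y - (derivative G).eval a / (derivative P).eval a with hg3
  have h1 : DifferentiableAt ℂ g1 a :=
    (DifferentiableAt.div ((derivative P).differentiable a) (dslope_diff P a a) hDa).sub_const _
  have h2 : DifferentiableAt ℂ g2 a :=
    (DifferentiableAt.div (dslope_diff _ a a) (dslope_diff P a a) hDa).sub_const _
  have h3 : DifferentiableAt ℂ g3 a :=
    (DifferentiableAt.div (dslope_diff _ a a) (dslope_diff P a a) hDa).sub_const _
  have e1 : g1 a = 0 := by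
    simp only [hg1]
    rw [hPa, div_self ha, sub_self]
  have e2 : g2 a = 0 := by
    simp only [hg2]
    rw [hPa, hQa, sub_self]
  have e3 : g3 a = 0 := by
    simp only [hg3]
    rw [hPa, hGa, sub_self]
  obtain ⟨C₁, hC₁⟩ := h1.isBigO_sub.bound
  obtain ⟨C₂, hC₂⟩ := h2.isBigO_sub.bound
  obtain ⟨C₃, hC₃⟩ := h3.isBigO_sub.bound
  have hne : ∀ᶠ y in 𝓝 a, dP y ≠ 0 := ((dslope_diff P a).continuous.continuousAt).eventually_ne hDa
  refine ⟨max 0 (max C₁ (max C₂ C₃)), le_max_left _ _, ?_⟩
  filter_upwards [hC₁, hC₂, hC₃, hne] with y k1 k2 k3 k4 hya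
  rw [e1, sub_zero] at k1
  rw [e2, sub_zero] at k2
  rw [e3, sub_zero] at k3
  have hya' : y - a ≠ 0 := sub_ne_zero.mpr hya
  have m1 : dP y * (y - a) = P.eval y - P.eval a := dslope_mul P a y
  have m2 : dQ y * (y - a) = (derivative P).eval y - (derivative P).eval a := dslope_mul _ a y
  have m3 : dG y * (y - a) = G.eval y - G.eval a := dslope_mul G a y
  refine ⟨?_, ?_⟩
  · rw [Ne, ← sub_eq_zero, ← m1, mul_eq_zero, not_or]
    exact ⟨k4, hya'⟩
  intro va vy
  set q : ℂ := (vy - va) / (y - a) with hq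
  have hvy : vy = va + q * (y - a) := by
    rw [hq, div_mul_cancel₀ _ hya']; ring
  have hkey : (((derivative P).eval y * vy + G.eval y) - ((derivative P).eval a * va + G.eval a)) /
          (P.eval y - P.eval a) - q -
          ((derivative (derivative P)).eval a * va + (derivative G).eval a) /
            (derivative P).eval a = g1 y * q + g2 y * va + g3 y := by
    have e6 : ((derivative P).eval y * vy + G.eval y) - ((derivative P).eval a * va + G.eval a) =
        ((derivative P).eval y * q + dQ y * va + dG y) * (y - a) := by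
      rw [hvy]
      linear_combination (-va) * m2 - m3
    rw [e6, ← m1, mul_div_mul_right _ _ hya']
    simp only [hg1, hg2, hg3]
    field_simp
    ring
  rw [hkey]
  have hy0 := norm_nonneg (y - a)
  set M : ℝ := max 0 (max C₁ (max C₂ C₃)) with hM
  have hC1 : ‖g1 y‖ ≤ M * ‖y - a‖ := k1.trans (by gcongr; simp [hM])
  have hC2 : ‖g2 y‖ ≤ M * ‖y - a‖ := k2.trans (by gcongr; simp [hM])
  have hC3 : ‖g3 y‖ ≤ M * ‖y - a‖ := k3.trans (by gcongr; simp [hM])
  calc ‖g1 y * q + g2 y * va + g3 y‖ ≤ ‖g1 y‖ * ‖q‖ + ‖g2 y‖ * ‖va‖ + ‖g3 y‖ := by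
        refine (norm_add_le _ _).trans ?_
        gcongr
        refine (norm_add_le _ _).trans ?_
        rw [norm_mul, norm_mul]
    _ ≤ (M * ‖y - a‖) * ‖q‖ + (M * ‖y - a‖) * ‖va‖ + M * ‖y - a‖ := by
        gcongr
    _ = _ := by ring

/-- the map -/
noncomputable def em (P : ℂ[X]) : ℂ → ℂ := fun w : ℂ => P.eval w

theorem em_apply (P : ℂ[X]) (w : ℂ) : em P w = P.eval w := rfl

theorem em_diff (P : ℂ[X]) (k : ℕ) : Differentiable ℂ (em P)^[k] :=
  Differentiable.iterate P.differentiable k

/-- the difference quotient at the point `P^j(a)` -/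
noncomputable def qq (P : ℂ[X]) (W : ℂ → ℂ) (a : ℂ) (j : ℕ) (y : ℂ) : ℂ :=
  (W y - W ((em P)^[j] a)) / (y - (em P)^[j] a)

/-- the increment -/
noncomputable def inc (P G : ℂ[X]) (W : ℂ → ℂ) (b : ℂ) : ℂ :=
  ((derivative (derivative P)).eval b * W b + (derivative G).eval b) / (derivative P).eval b

/-- The change of the difference quotient under several steps. -/
theorem steps {P G : ℂ[X]} {B : Set ℂ} {W : ℂ → ℂ}
    (hW : ∀ a ∈ B, P.eval a ∈ B ∧ W (P.eval a) = (derivative P).eval a * W a + G.eval a)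
    {a : ℂ} (ha : a ∈ B) (hne : ∀ j, (derivative P).eval ((em P)^[j] a) ≠ 0) (j : ℕ) :
    ∃ C : ℝ, 0 ≤ C ∧ ∀ᶠ y in 𝓝 a, y ∈ B → y ≠ a → (em P)^[j] y ≠ (em P)^[j] a ∧
      ‖qq P W a j ((em P)^[j] y) - qq P W a 0 y -
        ∑ i ∈ Finset.range j, inc P G W ((em P)^[i] a)‖ ≤
      C * ‖y - a‖ * (1 + ‖qq P W a 0 y‖) := by
  have hB : ∀ k, ∀ y ∈ B, (em P)^[k] y ∈ B := by
    intro k y hy
    induction k with
    | zero => exact hy
    | succ k ih =>
      rw [Function.iterate_succ_apply']
      exact (hW _ ih).1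
  induction j with
  | zero =>
    refine ⟨0, le_rfl, ?_⟩
    filter_upwards with y hy hya
    refine ⟨hya, ?_⟩
    simp
  | succ j ih =>
    obtain ⟨C, hC, h1⟩ := ih
    obtain ⟨C', hC', h2⟩ := one_step P G (hne j)
    set b := (em P)^[j] a with hb
    set S := ∑ i ∈ Finset.range j, inc P G W ((em P)^[i] a) with hS
    have hcont : Tendsto (em P)^[j] (𝓝 a) (𝓝 b) := (em_diff P j).continuous.tendsto a
    obtain ⟨L, hL⟩ := (em_diff P j a).isBigO_sub.bound
    set L' := max L 0 with hL'
    refine ⟨C + C' * L' * (1 + ‖S‖ + C + ‖W b‖ + 1), by positivity, ?_⟩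
    have hball : ∀ᶠ y in 𝓝 a, ‖y - a‖ < 1 := by
      have := Metric.ball_mem_nhds a (one_pos : (0 : ℝ) < 1)
      filter_upwards [this] with y hy
      rwa [mem_ball_iff_norm] at hy
    filter_upwards [h1, hcont.eventually h2, hL, hball] with y k1 k2 k3 k4 hy hya
    obtain ⟨m1, m2⟩ := k1 hy hya
    obtain ⟨m3, m4⟩ := k2 m1
    set x := (em P)^[j] y with hx
    have hxB : x ∈ B := hB j y hy
    have hbB : b ∈ B := hB j a ha
    have hfx : (em P)^[j + 1] y = P.eval x := by
      rw [Function.iterate_succ_apply']; rfl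
    have hfb : (em P)^[j + 1] a = P.eval b := by
      rw [Function.iterate_succ_apply']; rfl
    refine ⟨?_, ?_⟩
    · rw [hfx, hfb]
      exact m3
    set q0 := qq P W a 0 y with hq0
    have hqj : qq P W a j x = (W x - W b) / (x - b) := rfl
    have hqs : qq P W a (j + 1) ((em P)^[j + 1] y) =
        (((derivative P).eval x * W x + G.eval x) - ((derivative P).eval b * W b + G.eval b)) /
          (P.eval x - P.eval b) := by
      unfold qq
      rw [hfx, hfb, (hW x hxB).2, (hW b hbB).2]
    have m5 := m4 (W b) (W x)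
    rw [← hqs, ← hqj] at m5
    rw [Finset.sum_range_succ]
    have e0 : ((derivative (derivative P)).eval b * W b + (derivative G).eval b) /
        (derivative P).eval b = inc P G W b := rfl
    rw [e0] at m5
    have e1 : qq P W a (j + 1) ((em P)^[j + 1] y) - q0 - (S + inc P G W b) =
        (qq P W a (j + 1) ((em P)^[j + 1] y) - qq P W a j x - inc P G W b) +
        (qq P W a j x - q0 - S) := by ring
    rw [e1]
    have hy0 := norm_nonneg (y - a)
    have hq00 := norm_nonneg q0
    have e2 : ‖qq P W a j x‖ ≤ ‖q0‖ + ‖S‖ + C * (1 + ‖q0‖) := by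
      have e3 : qq P W a j x = (qq P W a j x - q0 - S) + (q0 + S) := by ring
      rw [e3]
      refine (norm_add_le _ _).trans ?_
      have e4 := norm_add_le q0 S
      have e5 : C * ‖y - a‖ * (1 + ‖q0‖) ≤ C * (1 + ‖q0‖) := by
        have : C * ‖y - a‖ ≤ C := by nlinarith
        nlinarith
      linarith
    have e6 : ‖x - b‖ ≤ L' * ‖y - a‖ := by
      refine k3.trans ?_
      gcongr
      exact le_max_left _ _
    have hS0 := norm_nonneg S
    have hW0 := norm_nonneg (W b)
    have e7 : ‖qq P W a j x‖ + ‖W b‖ + 1 ≤ (1 + ‖S‖ + C + ‖W b‖ + 1) * (1 + ‖q0‖) := by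
      nlinarith [mul_nonneg hS0 hq00, mul_nonneg hW0 hq00, mul_nonneg hC hq00]
    calc ‖(qq P W a (j + 1) ((em P)^[j + 1] y) - qq P W a j x - inc P G W b) +
        (qq P W a j x - q0 - S)‖ ≤
        C' * ‖x - b‖ * (‖qq P W a j x‖ + ‖W b‖ + 1) + C * ‖y - a‖ * (1 + ‖q0‖) :=
          (norm_add_le _ _).trans (add_le_add m5 m2)
      _ ≤ C' * (L' * ‖y - a‖) * ((1 + ‖S‖ + C + ‖W b‖ + 1) * (1 + ‖q0‖)) +
          C * ‖y - a‖ * (1 + ‖q0‖) := by
          gcongr
      _ = _ := by ring

/-! ### Derivatives in families -/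

/-- the family `F` is differentiable at `0` with the derivative `G` -/
structure DF (F : ℂ → ℂ[X]) (G : ℂ[X]) : Prop where
  dg : ∃ m : ℕ, ∀ᶠ t in 𝓝 (0 : ℂ), (F t).natDegree ≤ m
  hd : ∀ i : ℕ, HasDerivAt (fun t => (F t).coeff i) (G.coeff i) 0

theorem DF.deriv {F : ℂ → ℂ[X]} {G : ℂ[X]} (h : DF F G) :
    DF (fun t => derivative (F t)) (derivative G) where
  dg := by
    obtain ⟨m, hm⟩ := h.dg
    refine ⟨m, ?_⟩
    filter_upwards [hm] with t ht
    exact (natDegree_derivative_le _).trans ((Nat.sub_le _ _).trans ht)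
  hd := by
    intro i
    simp only [coeff_derivative]
    exact (h.hd (i + 1)).mul_const _

theorem DF.eval {F : ℂ → ℂ[X]} {G : ℂ[X]} (h : DF F G) {ζ : ℂ → ℂ} {ζ' : ℂ}
    (hζ : HasDerivAt ζ ζ' 0) :
    HasDerivAt (fun t => (F t).eval (ζ t))
      ((derivative (F 0)).eval (ζ 0) * ζ' + G.eval (ζ 0)) 0 := by
  obtain ⟨m, hm⟩ := h.dg
  have hm0 : (F 0).natDegree ≤ m := hm.self_of_nhds
  set M := max m G.natDegree with hM
  have h1 : HasDerivAt (fun t => ∑ i ∈ Finset.range (M + 1), (F t).coeff i * ζ t ^ i)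
      (∑ i ∈ Finset.range (M + 1), (G.coeff i * ζ 0 ^ i + (F 0).coeff i * (i * ζ 0 ^ (i - 1) * ζ')))
      0 := by
    apply HasDerivAt.fun_sum
    intro i _
    exact (h.hd i).mul (hζ.fun_pow i)
  have h2 : (∑ i ∈ Finset.range (M + 1),
      (G.coeff i * ζ 0 ^ i + (F 0).coeff i * (i * ζ 0 ^ (i - 1) * ζ'))) =
      (derivative (F 0)).eval (ζ 0) * ζ' + G.eval (ζ 0) := by
    rw [Finset.sum_add_distrib, add_comm]
    congr 1
    · rw [Polynomial.derivative_eval, Polynomial.sum_over_range' _ _ (M + 1) (by omega),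
        Finset.sum_mul]
      · refine Finset.sum_congr rfl fun i _ => ?_
        ring
      · intro i
        simp
    · exact (Polynomial.eval_eq_sum_range' (by omega) _).symm
  rw [← h2]
  refine h1.congr_of_eventuallyEq ?_
  filter_upwards [hm] with t ht
  exact Polynomial.eval_eq_sum_range' (by omega) _

end Pool.Agent.H51MS
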