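import Mathlib
import Pool.Agent.H51MS.Loc
import Pool.Agent.H46TP.Fin
import Pool.Agent.H46FS.Tra

/-!
# The vector field on the boundary of the filled Julia set, for families of arbitrary polynomials
-/

set_option autoImplicit false

open Complex Topology Filter Metric MeasureTheory Set Polynomial

namespace Pool.Agent.H51MS

open Pool.Agent.H713R2 Pool.Agent.H713R2.AR Pool.Agent.H69N.LA
open Pool.Agent.H713R3.ZA (StROOT StINV StBSUM KJ QQ)
open Pool.Agent.H46FS
open Pool.Agent.H46TP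

/-- the polynomial of the derivatives of the coefficients -/
noncomputable def GG (f : ℂ → ℂ[X]) (n : ℕ) : ℂ[X] :=
  ∑ i ∈ Finset.range (n + 2), C (deriv (fun t => (f t).coeff i) 0) * X ^ i

theorem DF_GG {n : ℕ} {ρ : ℝ} (hρ : 0 < ρ) {f : ℂ → ℂ[X]}
    (hdeg : ∀ t ∈ ball (0 : ℂ) ρ, (f t).natDegree ≤ n + 1)
    (hhol : ∀ j : ℕ, DifferentiableOn ℂ (fun t => (f t).coeff j) (ball 0 ρ)) : DF f (GG f n) where
  dg := ⟨n + 1, by
    filter_upwards [ball_mem_nhds (0 : ℂ) hρ] with t ht using hdeg t ht⟩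
  hd := by
    intro i
    have h1 : (GG f n).coeff i = if i < n + 2 then deriv (fun t => (f t).coeff i) 0 else 0 := by
      unfold GG
      rw [Polynomial.finset_sum_coeff]
      simp only [coeff_C_mul_X_pow]
      rw [Finset.sum_ite_eq]
      simp only [Finset.mem_range]
    rw [h1]
    split_ifs with h2
    · exact ((hhol i).differentiableAt (ball_mem_nhds (0 : ℂ) hρ)).hasDerivAt
    · refine (hasDerivAt_const (0 : ℂ) (0 : ℂ)).congr_of_eventuallyEq ?_
      filter_upwards [ball_mem_nhds (0 : ℂ) hρ] with t ht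
      exact coeff_eq_zero_of_natDegree_lt (lt_of_le_of_lt (hdeg t ht) (by omega))

section
variable {ρ R C₁ R₃ : ℝ} {f : ℂ → ℂ[X]} {Φ : ℕ → ℂ → ℂ → ℂ}

theorem mem_iter (h : MF ρ f R C₁ R₃ Φ) (k : ℕ) (z : ℂ) :
    (fv f 0)^[k] z ∈ KJ (f 0) ↔ z ∈ KJ (f 0) := by
  induction k with
  | zero => rfl
  | succ k ih => rw [Function.iterate_succ_apply', h.mem_iff, ih]

theorem compactK (h : MF ρ f R C₁ R₃ Φ) : IsCompact (KJ (f 0)) := by
  rw [← h.inter]
  exact (h.cpt 0).of_isClosed_subset (isClosed_iInter fun N => (h.cpt N).isClosed)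
    (iInter_subset _ 0)

/-- **The vector field on the boundary of the filled Julia set.** -/
theorem exists_W {n : ℕ} (h : MF ρ f R C₁ R₃ Φ)
    (hdeg : ∀ t ∈ ball (0 : ℂ) ρ, (f t).natDegree ≤ n + 1)
    (hhol : ∀ j : ℕ, DifferentiableOn ℂ (fun t => (f t).coeff j) (ball 0 ρ)) :
    ∃ W : ℂ → ℂ,
      (∀ a ∈ BJ f, (f 0).eval a ∈ BJ f ∧
        W ((f 0).eval a) = (derivative (f 0)).eval a * W a + (GG f n).eval a) ∧
      ∀ a ∈ BJ f, ∀ b ∈ BJ f, a ≠ b →
        Real.pi * ρ * ‖W a - W b‖ ≤ ‖a - b‖ * (TT (KJ (f 0)) a b).toReal := by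
  have hρ := (h.mv 0).ρ0
  obtain ⟨W, hW⟩ := h.exists_lim
  have h0ρ : (0 : ℂ) ∈ ball (0 : ℂ) ρ := mem_ball_self hρ
  have hDF := DF_GG hρ hdeg hhol
  set P := f 0 with hP
  set G := GG f n with hG
  -- the functional equation outside
  have hout : ∀ z ∉ KJ P, VF f R₃ Φ (P.eval z) =
      (derivative P).eval z * VF f R₃ Φ z + G.eval z := by
    intro z hz
    obtain ⟨N, hN⟩ := (h.union z).mp hz
    have hN' : z ∈ WU f R₃ (N + 1) := h.mono (Nat.le_succ N) hN
    have hN2 : fv f 0 z ∈ WU f R₃ N := by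
      have e1 : R₃ < ‖(fv f 0)^[N + 1] z‖ := hN'
      rwa [Function.iterate_succ_apply] at e1
    have e1 := h.hasDerivAt hN'
    have e2 := h.hasDerivAt hN2
    have e3 := hDF.eval e1
    rw [(h.mv (N + 1)).H0 z hN'] at e3
    have e4 : HasDerivAt (fun t => (f t).eval (Φ (N + 1) t z)) (VF f R₃ Φ (fv f 0 z)) 0 := by
      apply e2.congr_of_eventuallyEq
      filter_upwards [isOpen_ball.mem_nhds h0ρ] with t ht
      exact h.eq N z hN' t ht
    exact e4.unique e3
  have hcP : Continuous fun z : ℂ => P.eval z := P.continuous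
  have hstep : ∀ a ∈ BJ f, Tendsto (fun z : ℂ => P.eval z) (𝓝[SS f R₃] a)
      (𝓝[SS f R₃] (P.eval a)) := by
    intro a ha
    apply tendsto_nhdsWithin_iff.mpr
    constructor
    · exact (hcP.tendsto a).mono_left nhdsWithin_le_nhds
    · have e1 := (h.near ha.1 1).filter_mono (nhdsWithin_le_nhds (s := SS f R₃))
      filter_upwards [e1, self_mem_nhdsWithin] with z hz1 hz2
      refine ⟨?_, ?_⟩
      · rw [mem_compl_iff]
        exact fun hc => hz2.1 ((h.mem_iff z).mp hc)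
      · rw [mem_closedBall_zero_iff]
        exact hz1.le
  have hmemBJ : ∀ a ∈ BJ f, P.eval a ∈ BJ f := by
    intro a ha
    refine ⟨(h.mem_iff a).mpr ha.1, ?_⟩
    have := h.neBot ha
    have e1 : Tendsto (fun z : ℂ => P.eval z) (𝓝[SS f R₃] a) (𝓝 (P.eval a)) :=
      (hstep a ha).mono_right nhdsWithin_le_nhds
    apply mem_closure_of_tendsto e1
    filter_upwards [self_mem_nhdsWithin] with z hz
    rw [mem_compl_iff]
    exact fun hc => hz.1 ((h.mem_iff z).mp hc)
  refine ⟨W, ?_, ?_⟩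
  · intro a ha
    refine ⟨hmemBJ a ha, ?_⟩
    have := h.neBot ha
    have e1 := (hW _ (hmemBJ a ha)).comp (hstep a ha)
    have e2 : Tendsto (fun z : ℂ => (derivative P).eval z * VF f R₃ Φ z + G.eval z) (𝓝[SS f R₃] a)
        (𝓝 ((derivative P).eval a * W a + G.eval a)) := by
      apply Tendsto.add
      · apply Tendsto.mul _ (hW a ha)
        exact ((derivative P).continuous.tendsto a).mono_left nhdsWithin_le_nhds
      · exact (G.continuous.tendsto a).mono_left nhdsWithin_le_nhds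
    apply tendsto_nhds_unique e1
    refine e2.congr' ?_
    filter_upwards [self_mem_nhdsWithin] with z hz
    exact (hout z hz.1).symm
  · intro a ha b hb' hab
    exact h.two_bd hW ha hb' hab

/-- uniform escape -/
theorem unif_esc (h : MF ρ f R C₁ R₃ Φ) {S : Set ℂ} (hS : IsCompact S)
    (hSK : ∀ z ∈ S, z ∉ KJ (f 0)) (B : ℝ) : ∃ n : ℕ, ∀ z ∈ S, B < ‖(fv f 0)^[n] z‖ := by
  obtain ⟨N, hN⟩ := hS.elim_directed_cover (fun N => WU f R₃ N) (fun N => isOpen_WU f R₃ N)
    (fun z hz => by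
      rw [mem_iUnion]
      exact (h.union z).mp (hSK z hz)) (h.mono.directed_le)
  have hR3 := h.R3pos
  have hge : ∀ (k : ℕ) (w : ℂ), R₃ < ‖w‖ → 2 ^ k * R₃ < ‖(fv f 0)^[k] w‖ := by
    intro k
    induction k with
    | zero => intro w hw; simpa using hw
    | succ k ih =>
      intro w hw
      have h1 := ih w hw
      rw [Function.iterate_succ_apply']
      have h2 : (1 : ℝ) ≤ 2 ^ k := one_le_pow₀ (by norm_num)
      have h3 := h.esc ((fv f 0)^[k] w) (by have := h.RR; nlinarith)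
      rw [pow_succ]
      linarith
  obtain ⟨k, hk⟩ := pow_unbounded_of_one_lt (B / R₃) (one_lt_two : (1 : ℝ) < 2)
  rw [div_lt_iff₀ hR3] at hk
  refine ⟨k + N, fun z hz => ?_⟩
  rw [Function.iterate_add_apply]
  exact hk.trans (hge k _ (hN hz))

/-- points of the filled Julia set accumulate -/
theorem acc_K (h : MF ρ f R C₁ R₃ Φ) {α w : ℂ} (hα : α ∈ KJ (f 0)) (hw : w ∈ KJ (f 0))
    (hne : ∀ j, (fv f 0)^[j] α ≠ w) {ε : ℝ} (hε : 0 < ε) :
    ∃ k ∈ KJ (f 0), k ≠ α ∧ ‖k - α‖ < ε := by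
  by_contra hcon
  push Not at hcon
  set r : ℝ := ε / 2 with hr
  have hr0 : 0 < r := by positivity
  have hsph : ∀ z ∈ sphere α r, z ∉ KJ (f 0) := by
    intro z hz hzK
    rw [mem_sphere_iff_norm] at hz
    have hzα : z ≠ α := by
      rintro rfl
      rw [sub_self, norm_zero] at hz
      linarith
    have := hcon z hzK hzα
    linarith
  obtain ⟨n, hn⟩ := unif_esc h (isCompact_sphere α r) hsph (R + 2 * ‖w‖ + 1)
  have hR := h.R1
  have hw0 := norm_nonneg w
  have hnz : ∀ z ∈ closedBall α r, (fv f 0)^[n] z - w ≠ 0 := by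
    intro z hz h0
    rw [sub_eq_zero] at h0
    have hzK : z ∈ KJ (f 0) := by
      rw [← mem_iter h n z, h0]
      exact hw
    by_cases hzα : z = α
    · rw [hzα] at h0
      exact hne n h0
    · have := hcon z hzK hzα
      rw [mem_closedBall_iff_norm] at hz
      linarith
  have hdf : Differentiable ℂ (fv f 0)^[n] := (fv_differentiable f 0).iterate n
  have hd1 : DiffContOnCl ℂ (fun z => ((fv f 0)^[n] z - w)⁻¹) (ball α r) := by
    apply DifferentiableOn.diffContOnCl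
    rw [closure_ball α hr0.ne']
    intro z hz
    exact (((hdf z).sub_const w).inv (hnz z hz)).differentiableWithinAt
  have hm : 0 < R + ‖w‖ + 1 := by linarith
  have h2 : ‖((fv f 0)^[n] α - w)⁻¹‖ ≤ (R + ‖w‖ + 1)⁻¹ := by
    apply Complex.norm_le_of_forall_mem_frontier_norm_le isBounded_ball hd1 _
      (subset_closure (mem_ball_self hr0))
    intro z hz
    rw [frontier_ball α hr0.ne'] at hz
    rw [norm_inv]
    apply inv_anti₀ hm
    have h3 := hn z hz
    have h4 := norm_sub_norm_le ((fv f 0)^[n] z) w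
    linarith
  rw [norm_inv] at h2
  have h3 : ‖(fv f 0)^[n] α‖ < R := h.bd α hα n
  have h4 : 0 < ‖(fv f 0)^[n] α - w‖ := norm_pos_iff.mpr (sub_ne_zero.mpr (hne n))
  have h5 := (inv_le_inv₀ h4 hm).mp h2
  have h6 := norm_sub_le ((fv f 0)^[n] α) w
  linarith

/-- the boundary points of the filled Julia set accumulate -/
theorem acc_BJ (h : MF ρ f R C₁ R₃ Φ) {α w : ℂ} (hα : α ∈ BJ f) (hw : w ∈ KJ (f 0))
    (hne : ∀ j, (fv f 0)^[j] α ≠ w) {ε : ℝ} (hε : 0 < ε) :
    ∃ b ∈ BJ f, b ≠ α ∧ ‖b - α‖ < ε := by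
  obtain ⟨k, hkK, hkα, hkε⟩ := acc_K h hα.1 hw hne hε
  obtain ⟨e, he, heε⟩ := Metric.mem_closure_iff.mp hα.2 ε hε
  have heα : e ≠ α := by
    rintro rfl
    exact he hα.1
  by_contra hcon
  push Not at hcon
  have hcl := (compactK h).isClosed
  have hcov : ball α ε \ {α} ⊆ interior (KJ (f 0)) ∪ (KJ (f 0))ᶜ := by
    rintro x ⟨hx1, hx2⟩
    rw [mem_ball_iff_norm] at hx1
    by_cases hxK : x ∈ KJ (f 0)
    · left
      by_contra hxi
      have hxb : x ∈ BJ f := ⟨hxK, by rwa [closure_compl, mem_compl_iff]⟩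
      have := hcon x hxb hx2
      linarith
    · right
      exact hxK
  have hk : k ∈ ball α ε \ {α} := ⟨by rwa [mem_ball_iff_norm], hkα⟩
  have he' : e ∈ ball α ε \ {α} := ⟨by rwa [mem_ball, dist_comm], heα⟩
  obtain ⟨x, -, hx1, hx2⟩ := punctured α ε _ _ isOpen_interior hcl.isOpen_compl hcov
    ⟨k, hk, (hcov hk).resolve_right (fun h => h hkK)⟩ ⟨e, he', he⟩
  exact hx2 (interior_subset hx1)

/-- local backward invariance -/
theorem back_BJ (h : MF ρ f R C₁ R₃ Φ) {α : ℂ} {p : ℕ} (hl : deriv (fv f 0)^[p] α ≠ 0) :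
    ∀ᶠ y in 𝓝 α, (fv f 0)^[p] y ∈ BJ f → y ∈ BJ f := by
  have hF : Differentiable ℂ (fv f 0)^[p] := (fv_differentiable f 0).iterate p
  have h1 : ∀ᶠ y in 𝓝 α, deriv (fv f 0)^[p] y ≠ 0 := by
    have h2 : Continuous (deriv (fv f 0)^[p]) :=
      (hF.contDiff (n := 1)).continuous_deriv le_rfl
    exact h2.continuousAt.eventually_ne hl
  filter_upwards [h1] with y hy hmem
  refine ⟨(mem_iter h p y).mp hmem.1, ?_⟩
  by_contra hcon
  rw [closure_compl, mem_compl_iff, not_not] at hcon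
  have h3 : KJ (f 0) ∈ 𝓝 y := mem_interior_iff_mem_nhds.mp hcon
  have h4 : HasStrictDerivAt (fv f 0)^[p] (deriv (fv f 0)^[p] y) y :=
    ((hF.contDiff (n := 1)).contDiffAt.hasStrictDerivAt one_ne_zero)
  have h5 := h4.map_nhds_eq hy
  have h6 : KJ (f 0) ∈ 𝓝 ((fv f 0)^[p] y) := by
    rw [← h5, mem_map]
    filter_upwards [h3] with u hu
    exact (mem_iter h p u).mpr hu
  have h7 := hmem.2
  rw [closure_compl, mem_compl_iff] at h7
  exact h7 (mem_interior_iff_mem_nhds.mpr h6)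

/-- repelling periodic points are on the boundary -/
theorem per_BJ (h : MF ρ f R C₁ R₃ Φ) {α : ℂ} {p : ℕ} (hp : 0 < p) (hα : (fv f 0)^[p] α = α)
    (hl : 1 < ‖deriv (fv f 0)^[p] α‖) : α ∈ BJ f := by
  have hF : Differentiable ℂ (fv f 0)^[p] := (fv_differentiable f 0).iterate p
  have hmem : α ∈ KJ (f 0) := by
    intro hcon
    have h1 : ∀ k, ‖(fv f 0)^[p * k] α‖ = ‖α‖ := by
      intro k
      rw [Function.iterate_mul]
      congr 1
      induction k with
      | zero => rfl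
      | succ k ih => rw [Function.iterate_succ_apply, hα, ih]
    have h2 : Tendsto (fun k : ℕ => p * k) atTop atTop :=
      tendsto_id.const_mul_atTop' hp
    have h3 := hcon.comp h2
    obtain ⟨k, hk⟩ := (h3.eventually (eventually_gt_atTop ‖α‖)).exists
    have h4 := h1 k
    change ‖α‖ < ‖(fv f 0)^[p * k] α‖ at hk
    linarith
  refine ⟨hmem, ?_⟩
  by_contra hcon
  rw [closure_compl, mem_compl_iff, not_not] at hcon
  have h1 : KJ (f 0) ∈ 𝓝 α := mem_interior_iff_mem_nhds.mp hcon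
  obtain ⟨r, hr, hsub⟩ := Metric.mem_nhds_iff.mp h1
  have h2 : ∀ n : ℕ, ‖deriv ((fv f 0)^[p])^[n] α‖ ≤ R / (r / 2) := by
    intro n
    apply norm_deriv_le_of_forall_mem_sphere_norm_le (half_pos hr)
    · exact (hF.iterate n).diffContOnCl
    · intro z hz
      rw [← Function.iterate_mul]
      refine (h.bd z (hsub ?_) _).le
      rw [mem_sphere_iff_norm] at hz
      rw [mem_ball_iff_norm, hz]
      linarith
  have h3 : ∀ n : ℕ, deriv ((fv f 0)^[p])^[n] α = (deriv (fv f 0)^[p] α) ^ n := fun n =>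
    ((hF α).hasDerivAt.iterate α hα n).deriv
  have h4 : Tendsto (fun n : ℕ => ‖deriv (fv f 0)^[p] α‖ ^ n) atTop atTop :=
    tendsto_pow_atTop_atTop_of_one_lt hl
  obtain ⟨n, hn⟩ := (h4.eventually (eventually_gt_atTop (R / (r / 2)))).exists
  have h5 := h2 n
  rw [h3, norm_pow] at h5
  linarith

end

end Pool.Agent.H51MS
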