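import Mathlib
import Pool.Agent.H51MS.Fam

/-!
# The derivatives of the multipliers of repelling cycles in families of arbitrary polynomials
-/

set_option autoImplicit false

open Complex Topology Filter Metric MeasureTheory Set Polynomial

namespace Pool.Agent.H51MS

open Pool.Agent.H713R2 Pool.Agent.H713R2.AR Pool.Agent.H69N.LA
open Pool.Agent.H713R3.ZA (StROOT StINV StBSUM KJ QQ)
open Pool.Agent.H46FS
open Pool.Agent.H46TP (MF VF SS BJ TT upDens upDens_nonneg upDens_le_one TT_dens growth limit_aux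
  exists_FA exists_MF)

theorem em_iter_hd (T : ℂ[X]) (z : ℂ) (p : ℕ) :
    HasDerivAt (em T)^[p] (∏ j ∈ Finset.range p, (derivative T).eval ((em T)^[j] z)) z := by
  induction p with
  | zero => simpa using hasDerivAt_id z
  | succ p ih =>
    rw [Function.iterate_succ', Finset.prod_range_succ, mul_comm]
    exact (T.hasDerivAt ((em T)^[p] z)).comp z ih

section
variable {f : ℂ → ℂ[X]} {α : ℂ → ℂ} {G : ℂ[X]}

theorem iter_succ_fun (j : ℕ) : (fun t => (em (f t))^[j + 1] (α t)) =
    fun t => (f t).eval ((em (f t))^[j] (α t)) := by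
  funext t
  rw [Function.iterate_succ_apply']
  rfl

theorem orbit_diff (hDF : DF f G) (hα : DifferentiableAt ℂ α 0) (j : ℕ) :
    DifferentiableAt ℂ (fun t => (em (f t))^[j] (α t)) 0 := by
  induction j with
  | zero => simpa using hα
  | succ j ih =>
    rw [iter_succ_fun]
    exact (hDF.eval ih.hasDerivAt).differentiableAt

/-- the derivatives of the points of the cycle -/
noncomputable def uu (f : ℂ → ℂ[X]) (α : ℂ → ℂ) (j : ℕ) : ℂ :=
  deriv (fun t => (em (f t))^[j] (α t)) 0

theorem uu_succ (hDF : DF f G) (hα : DifferentiableAt ℂ α 0) (j : ℕ) :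
    uu f α (j + 1) = (derivative (f 0)).eval ((em (f 0))^[j] (α 0)) * uu f α j +
      G.eval ((em (f 0))^[j] (α 0)) := by
  unfold uu
  rw [iter_succ_fun]
  exact (hDF.eval (orbit_diff hDF hα j).hasDerivAt).deriv

theorem mult_deriv (hDF : DF f G) (hα : DifferentiableAt ℂ α 0)
    (hne : ∀ j, (derivative (f 0)).eval ((em (f 0))^[j] (α 0)) ≠ 0) (p : ℕ) :
    HasDerivAt (fun t => ∏ j ∈ Finset.range p, (derivative (f t)).eval ((em (f t))^[j] (α t)))
      ((∏ j ∈ Finset.range p, (derivative (f 0)).eval ((em (f 0))^[j] (α 0))) *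
        ∑ j ∈ Finset.range p, ((derivative (derivative (f 0))).eval ((em (f 0))^[j] (α 0)) *
          uu f α j + (derivative G).eval ((em (f 0))^[j] (α 0))) /
            (derivative (f 0)).eval ((em (f 0))^[j] (α 0))) 0 := by
  induction p with
  | zero => simpa using hasDerivAt_const (0 : ℂ) (1 : ℂ)
  | succ p ih =>
    have h1 : (fun t => ∏ j ∈ Finset.range (p + 1),
        (derivative (f t)).eval ((em (f t))^[j] (α t))) =
        fun t => (∏ j ∈ Finset.range p, (derivative (f t)).eval ((em (f t))^[j] (α t))) *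
          (derivative (f t)).eval ((em (f t))^[p] (α t)) := by
      funext t
      rw [Finset.prod_range_succ]
    rw [h1, Finset.prod_range_succ, Finset.sum_range_succ]
    have h2 := hDF.deriv.eval (orbit_diff hDF hα p).hasDerivAt
    refine (ih.mul h2).congr_deriv ?_
    have hx := hne p
    have hu : deriv (fun t => (em (f t))^[p] (α t)) 0 = uu f α p := rfl
    rw [hu]
    field_simp

end

/-- equality of cocycles -/
theorem cocycle_eq {p : ℕ} {m g w u : ℕ → ℂ} (hw : ∀ j, w (j + 1) = m j * w j + g j)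
    (hu : ∀ j, u (j + 1) = m j * u j + g j) (hwp : w p = w 0) (hup : u p = u 0)
    (hl : ∏ j ∈ Finset.range p, m j ≠ 1) (j : ℕ) : w j = u j := by
  have h1 : ∀ j, w j - u j = (∏ i ∈ Finset.range j, m i) * (w 0 - u 0) := by
    intro j
    induction j with
    | zero => simp
    | succ j ih =>
      rw [hw, hu, Finset.prod_range_succ]
      linear_combination (m j) * ih
  have h2 := h1 p
  rw [hwp, hup] at h2
  have h3 : (1 - ∏ j ∈ Finset.range p, m j) * (w 0 - u 0) = 0 := by
    linear_combination h2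
  rcases mul_eq_zero.mp h3 with h | h
  · exfalso
    apply hl
    linear_combination -h
  · have := h1 j
    rw [h, mul_zero] at this
    linear_combination this

/-- **The derivatives of the multipliers of repelling cycles** in a holomorphic family of polynomials
without escaping critical points. -/
theorem family_mult {n : ℕ} (hn : 1 ≤ n) {a : ℂ} (ha : a ≠ 0) {f : ℂ → ℂ[X]}
    (hdeg : ∀ t ∈ ball (0 : ℂ) 1, (f t).natDegree ≤ n + 1)
    (hlead : ∀ t ∈ ball (0 : ℂ) 1, (f t).coeff (n + 1) = a)
    (hsec : ∀ t ∈ ball (0 : ℂ) 1, (f t).coeff n = (f 0).coeff n)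
    (hhol : ∀ j : ℕ, DifferentiableOn ℂ (fun t => (f t).coeff j) (ball 0 1))
    (hnon : ∀ t ∈ ball (0 : ℂ) 1, ∀ c : ℂ, (derivative (f t)).eval c = 0 → c ∈ KJ (f t))
    {p : ℕ} (hp : 0 < p) {α : ℂ → ℂ} (hα : DifferentiableAt ℂ α 0)
    (hper : ∀ᶠ t in 𝓝 (0 : ℂ), (em (f t))^[p] (α t) = α t)
    (hl : 1 < ‖deriv (em (f 0))^[p] (α 0)‖) :
    ‖deriv (fun t => deriv (em (f t))^[p] (α t)) 0‖ ≤
      2 * upDens (KJ (f 0)) (α 0) *
        (‖deriv (em (f 0))^[p] (α 0)‖ * Real.log ‖deriv (em (f 0))^[p] (α 0)‖) := by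
  have hpi := Real.pi_pos
  have h0mem : (0 : ℂ) ∈ ball (0 : ℂ) 1 := mem_ball_self one_pos
  have hpc : (em (f 0))^[p] (α 0) = α 0 := hper.self_of_nhds
  set b := α 0 with hb
  set P := f 0 with hP
  set lam := deriv (em P)^[p] b with hlam
  set K := KJ P with hK
  have hlam0 : lam ≠ 0 := by
    intro h
    rw [h, norm_zero] at hl
    linarith
  have hprod : lam = ∏ j ∈ Finset.range p, (derivative P).eval ((em P)^[j] b) :=
    (em_iter_hd P b p).deriv
  have hne' : ∀ j < p, (derivative P).eval ((em P)^[j] b) ≠ 0 := by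
    intro j hj h0
    apply hlam0
    rw [hprod]
    exact Finset.prod_eq_zero (Finset.mem_range.mpr hj) h0
  have hne : ∀ j, (derivative P).eval ((em P)^[j] b) ≠ 0 := by
    intro j
    have h1 : (em P)^[j % p] b = (em P)^[j] b :=
      Function.IsPeriodicPt.iterate_mod_apply hpc j
    rw [← h1]
    exact hne' _ (Nat.mod_lt _ hp)
  have hl1 : lam ≠ 1 := by
    intro h
    rw [h, norm_one] at hl
    linarith
  set G := GG f n with hG
  have hDF : DF f G := DF_GG one_pos hdeg hhol
  -- the derivative of the multiplier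
  set S : ℂ := ∑ j ∈ Finset.range p, ((derivative (derivative P)).eval ((em P)^[j] b) *
          uu f α j + (derivative G).eval ((em P)^[j] b)) / (derivative P).eval ((em P)^[j] b) with hS
  have hder : deriv (fun t => deriv (em (f t))^[p] (α t)) 0 = lam * S := by
    have h1 : (fun t => deriv (em (f t))^[p] (α t)) =
        fun t => ∏ j ∈ Finset.range p, (derivative (f t)).eval ((em (f t))^[j] (α t)) := by
      funext t
      exact (em_iter_hd (f t) (α t) p).deriv
    rw [h1, (mult_deriv hDF hα hne p).deriv, hprod]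
  have hup : uu f α p = uu f α 0 := by
    unfold uu
    apply Filter.EventuallyEq.deriv_eq
    filter_upwards [hper] with t ht
    rw [ht]
    rfl
  -- a critical point
  obtain ⟨w, hw⟩ : ∃ w, (derivative P).eval w = 0 := by
    have h1 : P.natDegree = n + 1 := by
      apply le_antisymm (hdeg 0 h0mem)
      apply le_natDegree_of_ne_zero
      rw [hlead 0 h0mem]
      exact ha
    have h2 : (derivative P).degree = (n : ℕ) := by
      rw [degree_derivative_eq P (by omega), h1, Nat.add_sub_cancel]
    have h3 : (derivative P).degree ≠ 0 := by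
      rw [h2]
      intro h4
      have h5 : n = 0 := by exact_mod_cast h4
      omega
    obtain ⟨w, hw⟩ := IsAlgClosed.exists_root (derivative P) h3
    exact ⟨w, hw⟩
  have hwK : w ∈ K := hnon 0 h0mem w hw
  have hnew : ∀ j, (em P)^[j] b ≠ w := by
    intro j h
    exact hne j (by rw [h]; exact hw)
  have key : ∀ ρ s θ : ℝ, 0 < ρ → ρ < 1 → 1 < s → upDens K b < θ →
      ρ * ‖S‖ ≤ s * (2 * θ) * Real.log ‖lam‖ := by
    intro ρ s θ hρ hρ1 hs hθ
    have hθ0 : 0 < θ := (upDens_nonneg K b).trans_lt hθ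
    have hsub : ball (0 : ℂ) ρ ⊆ ball 0 1 := ball_subset_ball hρ1.le
    obtain ⟨A, hf⟩ := exists_FA hn ha hdeg hlead hsec hhol hnon ρ hρ hρ1
    obtain ⟨R, C₁, R₁, R₃, ψ, φ, hbt⟩ := hf.exists_boett Pool.Agent.H713R3.ZA.bsum_holds
      Pool.Agent.H713R3.ZA.inv_holds
    obtain ⟨Φ, h⟩ := exists_MF hf hbt
    have hbB : b ∈ BJ f := per_BJ h hp hpc hl
    obtain ⟨W, hW1, hW2⟩ := exists_W (n := n) h (fun t ht => hdeg t (hsub ht))
      (fun j => (hhol j).mono hsub)
    obtain ⟨C, hC0, hC⟩ := TT_dens (compactK h) b hs hθ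
    obtain ⟨C', hC'0, hC'⟩ := steps hW1 hbB hne p
    have hwj : ∀ j, W ((em P)^[j] b) = uu f α j := by
      have hB : ∀ k, (em P)^[k] b ∈ BJ f := by
        intro k
        induction k with
        | zero => exact hbB
        | succ k ih =>
          rw [Function.iterate_succ_apply']
          exact (hW1 _ ih).1
      apply cocycle_eq (p := p) (m := fun j => (derivative P).eval ((em P)^[j] b))
        (g := fun j => G.eval ((em P)^[j] b))
      · intro j
        rw [Function.iterate_succ_apply']
        exact (hW1 _ (hB j)).2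
      · intro j
        exact uu_succ hDF hα j
      · rw [hpc]; rfl
      · exact hup
      · rw [← hprod]; exact hl1
    have hΛ : ∑ i ∈ Finset.range p, inc P G W ((em P)^[i] b) = S := by
      rw [hS]
      apply Finset.sum_congr rfl
      intro i _
      unfold inc
      rw [hwj]
    have hF : HasStrictDerivAt (em P)^[p] lam b :=
      (((em_diff P p).contDiff (n := 1)).contDiffAt.hasStrictDerivAt one_ne_zero)
    have hg := growth (F := (em P)^[p]) (q := qq P W b 0) (B := BJ f) (Λ := S)
      (C := C') (A₀ := s * (2 * θ) / ρ) (B₀ := C / (Real.pi * ρ)) hF hpc hl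
      (fun ε hε => acc_BJ h hbB hwK hnew hε) (back_BJ h hlam0) hC'0 (by positivity)
      (by positivity) ?_ ?_
    · have h1 : ρ * ‖S‖ ≤ ρ * (s * (2 * θ) / ρ * Real.log ‖lam‖) := by gcongr
      refine h1.trans (le_of_eq ?_)
      field_simp
    · filter_upwards [hC'] with y hy hyB hya
      have h1 := (hy hyB hya).2
      rw [hΛ] at h1
      have h2 : qq P W b p ((em P)^[p] y) = qq P W b 0 ((em P)^[p] y) := by
        unfold qq
        rw [hpc]
        rfl
      rwa [h2] at h1
    · filter_upwards [hC] with y hy hyB hya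
      have h1 := hW2 b hbB y hyB hya.symm
      have h2 := hy hya
      have hya0 : 0 < ‖y - b‖ := norm_pos_iff.mpr (sub_ne_zero.mpr hya)
      have h3 : qq P W b 0 y = (W y - W b) / (y - b) := rfl
      rw [h3, norm_div, div_le_iff₀ hya0, norm_sub_rev (W y)]
      rw [norm_sub_rev b y] at h1
      have h4 : Real.pi * ρ * ‖W b - W y‖ ≤
          ‖y - b‖ * (s * (2 * Real.pi * θ) * Real.log (1 / ‖y - b‖) + C) := by
        refine h1.trans ?_
        gcongr
      have h5 : ‖W b - W y‖ ≤
          ‖y - b‖ * (s * (2 * Real.pi * θ) * Real.log (1 / ‖y - b‖) + C) / (Real.pi * ρ) := by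
        rw [le_div_iff₀ (by positivity)]
        linarith
      refine h5.trans (le_of_eq ?_)
      field_simp
  have hfin : ‖S‖ ≤ 2 * upDens K b * Real.log ‖lam‖ := by
    apply limit_aux
    intro t ht ht1
    exact key (1 - t) (1 + t) (upDens K b + t) (by linarith) (by linarith) (by linarith)
      (by linarith)
  rw [hder, norm_mul]
  have h0 := norm_nonneg lam
  calc ‖lam‖ * ‖S‖ ≤ ‖lam‖ * (2 * upDens K b * Real.log ‖lam‖) := by gcongr
    _ = _ := by ring

end Pool.Agent.H51MS
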