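import Mathlib
import Pool.Agent.H51MS.Fin
import Pool.Agent.H69N.LA.Tr

/-!
# Multipliers and Newton steps against the distance to capture
-/

set_option autoImplicit false

open Complex Topology Filter Metric MeasureTheory Set Polynomial

namespace Pool.Agent.H51MS

open Pool.Agent.H69N.LA
open Pool.Agent.H713R3.ZA (StROOT StINV StBSUM KJ QQ)
open Pool.Agent.H713R5.QJ (ev Sk AT Good Para Sieg JS)
open Pool.Agent.H46FS
open Pool.Agent.H46TP (TT upDens family_two TT_toReal TT_le upDens_nonneg)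

/-- the linear families -/
theorem linear_family {T Q : ℂ[X]} {n : ℕ} (hn : T.natDegree = n + 1) (hQ : Q.natDegree < n ∨ Q = 0 )
    {ε : ℝ} (hε : 0 < ε)
    (hc : ∀ s : ℂ, ‖s‖ < ε → ∀ c : ℂ, (derivative (T + C s * Q)).eval c = 0 → c ∈ KJ (T + C s * Q)) :
    (∀ t ∈ ball (0 : ℂ) 1, (T + C ((ε : ℂ) * t) * Q).natDegree ≤ n + 1) ∧
    (∀ t ∈ ball (0 : ℂ) 1, (T + C ((ε : ℂ) * t) * Q).coeff (n + 1) = T.coeff (n + 1)) ∧
    (∀ t ∈ ball (0 : ℂ) 1, (T + C ((ε : ℂ) * t) * Q).coeff n =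
      (T + C ((ε : ℂ) * 0) * Q).coeff n) ∧
    (∀ j : ℕ, DifferentiableOn ℂ (fun t => (T + C ((ε : ℂ) * t) * Q).coeff j) (ball 0 1)) ∧
    (∀ t ∈ ball (0 : ℂ) 1, ∀ c : ℂ, (derivative (T + C ((ε : ℂ) * t) * Q)).eval c = 0 →
      c ∈ KJ (T + C ((ε : ℂ) * t) * Q)) := by
  have hcoef : ∀ (u : ℂ) (j : ℕ), n ≤ j → (T + C u * Q).coeff j = T.coeff j := by
    intro u j hj
    rw [coeff_add, coeff_C_mul]
    have : Q.coeff j = 0 := by
      rcases hQ with h | h
      · exact coeff_eq_zero_of_natDegree_lt (by omega)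
      · rw [h, coeff_zero]
    rw [this, mul_zero, add_zero]
  refine ⟨?_, fun t _ => hcoef _ _ (by omega), fun t _ => by rw [hcoef _ _ le_rfl, hcoef _ _ le_rfl],
    ?_, ?_⟩
  · intro t _
    rw [natDegree_le_iff_coeff_eq_zero]
    intro j hj
    rw [hcoef _ _ (by omega)]
    exact coeff_eq_zero_of_natDegree_lt (by omega)
  · intro j
    simp only [coeff_add, coeff_C_mul]
    fun_prop
  · intro t ht c hcc
    refine hc _ ?_ c hcc
    rw [norm_mul, Complex.norm_real, Real.norm_eq_abs, abs_of_pos hε]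
    rw [mem_ball_zero_iff] at ht
    nlinarith

/-- **Multipliers and the distance to escape in the direction `Q`.** -/
theorem mult_escape {T Q : ℂ[X]} (hT : 2 ≤ T.natDegree) (hQ : Q.natDegree + 2 ≤ T.natDegree)
    {p : ℕ} (hp : 0 < p) {α : ℂ → ℂ} (hα : DifferentiableAt ℂ α 0)
    (hper : ∀ᶠ s in 𝓝 (0 : ℂ), (em (T + C s * Q))^[p] (α s) = α s)
    (hl : 1 < ‖deriv (em T)^[p] (α 0)‖) {ε : ℝ} (hε : 0 < ε)
    (hc : ∀ s : ℂ, ‖s‖ < ε → ∀ c : ℂ, (derivative (T + C s * Q)).eval c = 0 →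
      c ∈ KJ (T + C s * Q)) :
    ‖deriv (fun s => deriv (em (T + C s * Q))^[p] (α s)) 0‖ * ε ≤
      2 * upDens (KJ T) (α 0) *
        (‖deriv (em T)^[p] (α 0)‖ * Real.log ‖deriv (em T)^[p] (α 0)‖) := by
  obtain ⟨n, hn⟩ : ∃ n, T.natDegree = n + 1 := ⟨T.natDegree - 1, by omega⟩
  have ha : T.coeff (n + 1) ≠ 0 := by
    rw [← hn, coeff_natDegree, leadingCoeff_ne_zero]
    rintro rfl
    rw [natDegree_zero] at hT
    omega
  obtain ⟨h1, h2, h3, h4, h5⟩ := linear_family hn (Or.inl (by omega)) hε hc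
  have e0 : T + C (0 : ℂ) * Q = T := by rw [C_0, zero_mul, add_zero]
  have hε' : Tendsto (fun t : ℂ => (ε : ℂ) * t) (𝓝 0) (𝓝 0) := by
    have : Tendsto (fun t : ℂ => (ε : ℂ) * t) (𝓝 0) (𝓝 ((ε : ℂ) * 0)) :=
      Continuous.tendsto (by fun_prop) 0
    rwa [mul_zero] at this
  have key := family_mult (n := n) (by omega) ha (f := fun t => T + C ((ε : ℂ) * t) * Q) h1 h2 h3
    h4 h5 hp (α := fun t => α ((ε : ℂ) * t)) ?_ (hε'.eventually hper) ?_
  · simp only [mul_zero, e0] at key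
    have h6 : deriv (fun t : ℂ => deriv (em (T + C ((ε : ℂ) * t) * Q))^[p] (α ((ε : ℂ) * t))) 0 =
        (ε : ℂ) • deriv (fun s => deriv (em (T + C s * Q))^[p] (α s)) ((ε : ℂ) * 0) :=
      deriv_comp_mul_left (ε : ℂ) (fun s => deriv (em (T + C s * Q))^[p] (α s)) 0
    rw [h6, mul_zero, norm_smul, Complex.norm_real, Real.norm_eq_abs, abs_of_pos hε, mul_comm] at key
    exact key
  · have h7 : DifferentiableAt ℂ α ((ε : ℂ) * 0) := by rwa [mul_zero]
    exact h7.comp (0 : ℂ) (f := fun t : ℂ => (ε : ℂ) * t) (by fun_prop)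
  · simp only [mul_zero, e0]
    exact hl

/-- **Multipliers and the distance to capture.** -/
theorem mult_capture {T : ℂ[X]} (hT : 2 ≤ T.natDegree)
    {p : ℕ} (hp : 0 < p) {α : ℂ → ℂ} (hα : DifferentiableAt ℂ α 0)
    (hper : ∀ᶠ s in 𝓝 (0 : ℂ), (em (T + C s))^[p] (α s) = α s)
    (hl : 1 < ‖deriv (em T)^[p] (α 0)‖) {ε : ℝ} (hε : 0 < ε)
    (hc : ∀ s : ℂ, ‖s‖ < ε → ∀ c : ℂ, (derivative T).eval c = 0 → ¬ Good (ev (T + C s)) c) :
    ‖deriv (fun s => deriv (em (T + C s))^[p] (α s)) 0‖ * ε ≤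
      2 * upDens (JS T) (α 0) *
        (‖deriv (em T)^[p] (α 0)‖ * Real.log ‖deriv (em T)^[p] (α 0)‖) := by
  have hKJ : KJ T = JS T := Subset.antisymm (KJ_sub_JS T hT hε hc) (JS_sub_KJ T)
  rw [← hKJ]
  have e1 : ∀ s : ℂ, T + C s * 1 = T + C s := fun s => by rw [mul_one]
  have key := mult_escape (T := T) (Q := 1) hT (by rw [natDegree_one]; exact hT) hp hα
    (by simpa only [e1] using hper) hl hε (by
      intro s hs c hcc
      rw [e1] at hcc ⊢
      rw [derivative_add, derivative_C, add_zero] at hcc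
      intro h
      exact hc s hs c hcc (Or.inl h))
  simpa only [e1] using key

/-- **Newton steps and the distance to capture.** -/
theorem newton_capture {T : ℂ[X]} (hT : 2 ≤ T.natDegree) {c : ℂ}
    (hcc : (derivative T).eval c = 0) {k : ℕ} (hk : 0 < k) {ε : ℝ} (hε : 0 < ε)
    (hc : ∀ s : ℂ, ‖s‖ < ε → ∀ c : ℂ, (derivative T).eval c = 0 → ¬ Good (ev (T + C s)) c) :
    Real.pi * (‖deriv (fun s : ℂ => (em (T + C s))^[k] c) 0‖ * ε) ≤
      ‖(em T)^[k] c - c‖ * ∫ z in JS T, (‖z - (em T)^[k] c‖ * ‖z - c‖)⁻¹ := by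
  have hKJ : KJ T = JS T := Subset.antisymm (KJ_sub_JS T hT hε hc) (JS_sub_KJ T)
  rw [← hKJ]
  obtain ⟨n, hn⟩ : ∃ n, T.natDegree = n + 1 := ⟨T.natDegree - 1, by omega⟩
  have ha : T.coeff (n + 1) ≠ 0 := by
    rw [← hn, coeff_natDegree, leadingCoeff_ne_zero]
    rintro rfl
    rw [natDegree_zero] at hT
    omega
  have hcK : ∀ s : ℂ, ‖s‖ < ε → c ∈ KJ (T + C s) := fun s hs h => hc s hs c hcc (Or.inl h)
  have e1 : ∀ s : ℂ, T + C s * 1 = T + C s := fun s => by rw [mul_one]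
  obtain ⟨h1, h2, h3, h4, h5⟩ := linear_family (T := T) (Q := 1) (n := n) hn
    (Or.inl (by rw [natDegree_one]; omega)) hε (by
      intro s hs c hcc
      rw [e1] at hcc ⊢
      rw [derivative_add, derivative_C, add_zero] at hcc
      intro h
      exact hc s hs c hcc (Or.inl h))
  simp only [e1] at h1 h2 h3 h4 h5
  have hball : ∀ t ∈ ball (0 : ℂ) 1, ‖(ε : ℂ) * t‖ < ε := by
    intro t ht
    rw [norm_mul, Complex.norm_real, Real.norm_eq_abs, abs_of_pos hε]
    rw [mem_ball_zero_iff] at ht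
    nlinarith
  have hζd : DifferentiableOn ℂ (fun t : ℂ => (fun w : ℂ => (T + C ((ε : ℂ) * t)).eval w)^[k] c)
      (ball 0 1) :=
    iter_hol (n := n) (f := fun t : ℂ => T + C ((ε : ℂ) * t)) (fun t ht => h1 t ht) h4
      (differentiableOn_const c) k
  have key := family_two (n := n) (by omega) ha (f := fun t : ℂ => T + C ((ε : ℂ) * t)) h1 h2 h3 h4
    h5 (ζ := fun t : ℂ => (fun w : ℂ => (T + C ((ε : ℂ) * t)).eval w)^[k] c) (η := fun _ => c) hζd
    (differentiableOn_const c) (fun t ht => KJ_iter _ (hcK _ (hball t ht)) k)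
    (fun t ht => hcK _ (hball t ht)) (by
      intro t ht heq
      have hs := hball t ht
      set s := (ε : ℂ) * t with hsdef
      have heq' : (ev (T + C s))^[k] c = c := heq
      apply hc s hs c hcc
      refine Or.inr ⟨k, hk, c, heq', ?_, ?_⟩
      · have h6 : deriv ((ev (T + C s))^[k]) c = 0 := by
          have h7 := (em_iter_hd (T + C s) c k).deriv
          have h8 : ∏ j ∈ Finset.range k, (derivative (T + C s)).eval ((em (T + C s))^[j] c) = 0 := by
            apply Finset.prod_eq_zero (Finset.mem_range.mpr hk)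
            rw [Function.iterate_zero, id, derivative_add, derivative_C, add_zero]
            exact hcc
          rw [h8] at h7
          exact h7
        rw [h6, norm_zero]
        exact one_pos
      · have h9 : ∀ m : ℕ, (ev (T + C s))^[k * m] c = c := by
          intro m
          rw [Function.iterate_mul]
          exact Function.iterate_fixed heq' m
        simp only [h9]
        exact tendsto_const_nhds)
  have e0 : T + C ((ε : ℂ) * 0) = T := by rw [mul_zero, C_0, add_zero]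
  have h6 : deriv (fun t : ℂ => (fun w : ℂ => (T + C ((ε : ℂ) * t)).eval w)^[k] c) 0 =
      (ε : ℂ) • deriv (fun s : ℂ => (em (T + C s))^[k] c) ((ε : ℂ) * 0) :=
    deriv_comp_mul_left (ε : ℂ) (fun s : ℂ => (em (T + C s))^[k] c) 0
  simp only [e0] at key
  rw [h6, deriv_const, sub_zero, mul_zero, norm_smul, Complex.norm_real, Real.norm_eq_abs,
    abs_of_pos hε, mul_comm ε] at key
  exact key

/-- the kernel -/
theorem kernel_bound {E : Set ℂ} (hE : IsCompact E) {a b : ℂ} (hab : a ≠ b) :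
    1 / Real.pi * ∫ z in E, (‖z - a‖ * ‖z - b‖)⁻¹ ≤
      4 + Real.log (1 + 4 * (volume E).toReal / (Real.pi * ‖a - b‖ ^ 2)) := by
  have hpi := Real.pi_pos
  rw [← TT_toReal]
  have h1 := TT_le hE hab
  have hδ0 : 0 < ‖a - b‖ := norm_pos_iff.mpr (sub_ne_zero.mpr hab)
  have hL : 0 ≤ Real.log (1 + 4 * (volume E).toReal / (Real.pi * ‖a - b‖ ^ 2)) :=
    Real.log_nonneg (by
      have : 0 ≤ 4 * (volume E).toReal / (Real.pi * ‖a - b‖ ^ 2) := by positivity
      linarith)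
  have h2 := ENNReal.toReal_mono ENNReal.ofReal_ne_top h1
  rw [ENNReal.toReal_ofReal (by positivity)] at h2
  rw [one_div, ← div_eq_inv_mul, div_le_iff₀ hpi, mul_comm]
  exact h2

end Pool.Agent.H51MS
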