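import Mathlib
import Pool.Agent.H51MS.Cap

/-!
# The bound for two points along holomorphic discs of translations
-/

set_option autoImplicit false

open Complex Topology Filter Metric MeasureTheory Set Polynomial

namespace Pool.Agent.H51MS

open Pool.Agent.H69N.LA
open Pool.Agent.H713R3.ZA (StROOT StINV StBSUM KJ QQ)
open Pool.Agent.H713R5.QJ (ev Sk AT Good Para Sieg JS)
open Pool.Agent.H46FS
open Pool.Agent.H46TP (TT upDens family_two TT_toReal TT_le upDens_nonneg)

/-- a critical point which returns to itself is captured -/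
theorem good_of_return {T : ℂ[X]} {s c : ℂ} (hcc : (derivative T).eval c = 0) {k : ℕ} (hk : 0 < k)
    (heq : (ev (T + C s))^[k] c = c) : Good (ev (T + C s)) c := by
  refine Or.inr ⟨k, hk, c, heq, ?_, ?_⟩
  · have h6 : deriv ((ev (T + C s))^[k]) c = 0 := by
      have h7 := (em_iter_hd (T + C s) c k).deriv
      have h8 : ∏ j ∈ Finset.range k, (derivative (T + C s)).eval ((em (T + C s))^[j] c) = 0 := by
        apply Finset.prod_eq_zero (Finset.mem_range.mpr hk)
        rw [Function.iterate_zero, id, derivative_add, derivative_C, add_zero]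
        exact hcc
      rw [h8] at h7
      exact h7
    rw [h6, norm_zero]
    exact one_pos
  · have h9 : ∀ m : ℕ, (ev (T + C s))^[k * m] c = c := by
      intro m
      rw [Function.iterate_mul]
      exact Function.iterate_fixed heq m
    simp only [h9]
    exact tendsto_const_nhds

/-- The bound for two points for holomorphic discs of translations without captured critical
points. -/
theorem translation_two (T : ℂ[X]) (hT : 2 ≤ T.natDegree) {g : ℂ → ℂ}
    (hg : DifferentiableOn ℂ g (ball 0 1)) (hg0 : g 0 = 0)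
    (hc : ∀ s ∈ ball (0 : ℂ) 1, ∀ c : ℂ, (derivative T).eval c = 0 → ¬ Good (ev (T + C (g s))) c)
    {c : ℂ} (hcc : (derivative T).eval c = 0) (k : ℕ) :
    Real.pi * (‖deriv (fun s : ℂ => (fun w : ℂ => (T + C s).eval w)^[k] c) 0‖ * ‖deriv g 0‖) ≤
      ‖(fun w : ℂ => T.eval w)^[k] c - c‖ *
        ∫ z in JS T, (‖z - (fun w : ℂ => T.eval w)^[k] c‖ * ‖z - c‖)⁻¹ := by
  have hint : 0 ≤ ∫ z in JS T, (‖z - (fun w : ℂ => T.eval w)^[k] c‖ * ‖z - c‖)⁻¹ :=
    integral_nonneg fun z => by positivity
  rcases Nat.eq_zero_or_pos k with rfl | hk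
  · have : (fun s : ℂ => (fun w : ℂ => (T + C s).eval w)^[0] c) = fun _ => c := rfl
    rw [this, deriv_const, norm_zero, zero_mul, mul_zero]
    positivity
  rcases translation_speed T hT hg hg0 hc hcc k with h | ⟨hKJ, -⟩
  · rw [h, norm_zero, mul_zero, mul_zero]
    positivity
  rw [← hKJ]
  obtain ⟨n, hn⟩ : ∃ n, T.natDegree = n + 1 := ⟨T.natDegree - 1, by omega⟩
  have ha : T.coeff (n + 1) ≠ 0 := by
    rw [← hn, coeff_natDegree, leadingCoeff_ne_zero]
    rintro rfl
    rw [natDegree_zero] at hT
    omega
  have hcoef : ∀ s j, (T + C (g s)).coeff j = T.coeff j + if j = 0 then g s else 0 := by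
    intro s j
    rw [coeff_add, coeff_C]
  have hdeg : ∀ s ∈ ball (0 : ℂ) 1, (T + C (g s)).natDegree ≤ n + 1 := fun s _ => by
    rw [natDegree_add_C, hn]
  have hhol : ∀ j : ℕ, DifferentiableOn ℂ (fun s => (T + C (g s)).coeff j) (ball 0 1) := by
    intro j
    simp only [hcoef]
    by_cases hj : j = 0
    · simp only [if_pos hj]
      exact hg.const_add _
    · simp only [if_neg hj]
      exact differentiableOn_const _
  have hnon : ∀ s ∈ ball (0 : ℂ) 1, ∀ c : ℂ, (derivative (T + C (g s))).eval c = 0 →
      c ∈ KJ (T + C (g s)) := by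
    intro s hs c hcc
    rw [derivative_add, derivative_C, add_zero] at hcc
    intro h
    exact hc s hs c hcc (Or.inl h)
  have hcK : ∀ s ∈ ball (0 : ℂ) 1, c ∈ KJ (T + C (g s)) := fun s hs => hnon s hs c (by
    rw [derivative_add, derivative_C, add_zero]
    exact hcc)
  have h0mem : (0 : ℂ) ∈ ball (0 : ℂ) 1 := mem_ball_self one_pos
  have key := family_two (n := n) (by omega) ha (f := fun t : ℂ => T + C (g t)) hdeg
    (fun s _ => by rw [hcoef, if_neg (by omega), add_zero])
    (fun s _ => by rw [hcoef, hcoef, if_neg (by omega), if_neg (by omega)]) hhol hnon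
    (ζ := fun t : ℂ => (fun w : ℂ => (T + C (g t)).eval w)^[k] c) (η := fun _ => c)
    (iter_hol (f := fun t => T + C (g t)) hdeg hhol (differentiableOn_const c) k)
    (differentiableOn_const c) (fun t ht => KJ_iter _ (hcK t ht) k) hcK
    (fun t ht heq => hc t ht c hcc (good_of_return hcc hk heq))
  have hgd : DifferentiableAt ℂ g 0 := hg.differentiableAt (isOpen_ball.mem_nhds h0mem)
  have hD : DifferentiableAt ℂ (fun s : ℂ => (fun w : ℂ => (T + C s).eval w)^[k] c) (g 0) := by
    have h1 : DifferentiableOn ℂ (fun s : ℂ => (fun w : ℂ => (T + C s).eval w)^[k] c)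
        (ball 0 1) := by
      refine iter_hol (n := n) (f := fun s : ℂ => T + C s) (fun s _ => by rw [natDegree_add_C, hn])
        (fun j => ?_) (differentiableOn_const c) k
      simp only [coeff_add, coeff_C]
      by_cases hj : j = 0
      · simp only [if_pos hj]
        exact (differentiableOn_id).const_add _
      · simp only [if_neg hj]
        exact differentiableOn_const _
    rw [hg0]
    exact h1.differentiableAt (isOpen_ball.mem_nhds h0mem)
  have e2 : deriv (fun t : ℂ => (fun w : ℂ => (T + C (g t)).eval w)^[k] c) 0 =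
      deriv (fun s : ℂ => (fun w : ℂ => (T + C s).eval w)^[k] c) 0 * deriv g 0 := by
    have h2 := deriv_comp (0 : ℂ) hD hgd
    rw [hg0] at h2
    exact h2
  have e0 : T + C (g 0) = T := by rw [hg0, C_0, add_zero]
  simp only [e0] at key
  rw [e2, deriv_const, sub_zero, norm_mul] at key
  exact key

end Pool.Agent.H51MS
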